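import Pool.Agent.H109.Thr.Final

/-!
The coefficient threshold of uniform hypergraphs is not monotone: for `k = 3` and `n = 4`
a single edge has threshold `18`, while two edges sharing two vertices have threshold `9`.
All definitions are in `Pool/Agent/H109/Thr/Defs.lean`.
-/

open Finset Pool.Agent.H109.Thr

namespace Pool.Agent.Results.MP_b5794e_co.Disproof

/-- The coefficient threshold is not monotone, and the two thresholds of the
counterexample. -/
theorem result :
    (¬ ∀ k n : ℕ, 3 ≤ k → ∀ ℋ 𝒢 : Finset (Finset (Fin n)), (∀ e ∈ 𝒢, e.card = k) → ℋ ⊆ 𝒢 →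
      ∀ T T' : ℕ, IsThreshold k n ℋ T → IsThreshold k n 𝒢 T' → T ≤ T') ∧
    IsThreshold 3 4 ({{0, 1, 2}} : Finset (Finset (Fin 4))) 18 ∧
    IsThreshold 3 4 ({{0, 1, 2}, {0, 1, 3}} : Finset (Finset (Fin 4))) 9 := by
  have h1 : IsThreshold 3 4 ({{0, 1, 2}} : Finset (Finset (Fin 4))) 18 := threshold_one
  have h2 : IsThreshold 3 4 ({{0, 1, 2}, {0, 1, 3}} : Finset (Finset (Fin 4))) 9 :=
    threshold_two
  refine ⟨fun h => ?_, h1, h2⟩
  have := h 3 4 le_rfl _ _ (by decide) (by decide) 18 9 h1 h2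
  omega

end Pool.Agent.Results.MP_b5794e_co.Disproof
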